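import Pool.Agent.H378R2.PS.Defs
import Pool.Agent.Helper112.Arith

set_option autoImplicit false

/-! # P2 (project PS of helper378): the average of `(m/φ(m))⁴/m` -/

namespace Pool.Agent.H378R2.PS

open Finset

theorem P2_ratio_le (r : ℕ) (hr : r ≠ 0) :
    ((r : ℝ) / (Nat.totient r : ℝ)) ^ 4 ≤ ∑ e ∈ r.divisors, ((e.divisors.card : ℝ) ^ 5 / e) := by
  rw [Pool.Agent.Helper112.ratio_eq r hr, ← Finset.prod_pow]
  have h1 : ∏ p ∈ r.primeFactors, ((p:ℝ) / (p - 1)) ^ 4 ≤ ∏ p ∈ r.primeFactors, (1 + 32 / (p:ℝ)) := by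
    apply Finset.prod_le_prod (fun p _ => by positivity)
    intro p hp
    have := (Nat.prime_of_mem_primeFactors hp).two_le
    have hp2 : (2:ℝ) ≤ p := by exact_mod_cast this
    have hp1 : (0:ℝ) < p - 1 := by linarith
    have hp0 : (0:ℝ) < p := by linarith
    rw [div_pow, div_le_iff₀ (by positivity)]
    have : (1 + 32 / (p:ℝ)) * (p - 1) ^ 4 = ((p + 32) * (p - 1) ^ 4) / p := by field_simp
    rw [this, le_div_iff₀ hp0]
    obtain ⟨x, hx⟩ : ∃ x : ℝ, (p : ℝ) = x + 1 := ⟨p - 1, by ring⟩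
    have hx1 : 1 ≤ x := by linarith
    rw [hx]
    have a1 : x ≤ x ^ 4 := by
      calc x = x ^ 1 := (pow_one x).symm
        _ ≤ x ^ 4 := pow_le_pow_right₀ hx1 (by norm_num)
    have a2 : x ^ 2 ≤ x ^ 4 := pow_le_pow_right₀ hx1 (by norm_num)
    have a3 : x ^ 3 ≤ x ^ 4 := pow_le_pow_right₀ hx1 (by norm_num)
    have a4 : 1 ≤ x ^ 4 := one_le_pow₀ hx1
    have e1 : (x + 1) ^ 4 * (x + 1) = x ^ 5 + 5 * x ^ 4 + 10 * x ^ 3 + 10 * x ^ 2 + 5 * x + 1 := by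
      ring
    have e2 : (x + 1 + 32) * (x + 1 - 1) ^ 4 = x ^ 5 + 33 * x ^ 4 := by ring
    rw [e1, e2]
    linarith
  refine h1.trans ?_
  rw [Finset.prod_one_add]
  -- sum over subsets of prime factors, map to divisors
  have hinj : Set.InjOn (fun s : Finset ℕ => ∏ p ∈ s, p) (r.primeFactors.powerset : Set (Finset ℕ)) := by
    intro s hs t ht hst
    simp only [Finset.coe_powerset, Set.mem_preimage, Set.mem_powerset_iff, Finset.coe_subset] at hs ht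
    have h1 := Nat.primeFactors_prod (s := s) (fun p hp => Nat.prime_of_mem_primeFactors (hs hp))
    have h2 := Nat.primeFactors_prod (s := t) (fun p hp => Nat.prime_of_mem_primeFactors (ht hp))
    simp only at hst
    rw [← h1, ← h2, hst]
  have hterm : ∀ s ∈ r.primeFactors.powerset, ∏ p ∈ s, (32 / (p:ℝ)) ≤
      (((∏ p ∈ s, p).divisors.card : ℝ) ^ 5 / ((∏ p ∈ s, p : ℕ) : ℝ)) := by
    intro s hs
    rw [Finset.mem_powerset] at hs
    have hpr : ∀ p ∈ s, p.Prime := fun p hp => Nat.prime_of_mem_primeFactors (hs hp)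
    rw [Finset.prod_div_distrib, Finset.prod_const]
    push_cast
    apply div_le_div_of_nonneg_right _ (Finset.prod_nonneg fun p _ => by positivity)
    have hne : (∏ p ∈ s, p) ≠ 0 := Finset.prod_ne_zero_iff.mpr (fun p hp => (hpr p hp).ne_zero)
    have hcard : 2 ^ s.card ≤ (∏ p ∈ s, p).divisors.card := by
      rw [Nat.card_divisors hne, Nat.primeFactors_prod hpr]
      rw [← Finset.prod_const]
      apply Finset.prod_le_prod' 
      intro p hp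
      have : 1 ≤ (∏ p ∈ s, p).factorization p := by
        rw [← Nat.Prime.dvd_iff_one_le_factorization (hpr p hp) hne]
        exact Finset.dvd_prod_of_mem _ hp
      omega
    have hcard' : (2:ℝ) ^ s.card ≤ ((∏ p ∈ s, p).divisors.card : ℝ) := by exact_mod_cast hcard
    calc (32:ℝ) ^ s.card = ((2:ℝ) ^ s.card) ^ 5 := by
          rw [← pow_mul, mul_comm, pow_mul]; norm_num
      _ ≤ _ := pow_le_pow_left₀ (by positivity) hcard' 5
  refine (Finset.sum_le_sum hterm).trans ?_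
  have e := Finset.sum_image (s := r.primeFactors.powerset) (g := fun s : Finset ℕ => ∏ p ∈ s, p)
    (f := fun e : ℕ => ((e.divisors.card : ℝ) ^ 5 / (e : ℝ))) hinj
  rw [← e]
  apply Finset.sum_le_sum_of_subset_of_nonneg
  · intro e he
    rw [Finset.mem_image] at he
    obtain ⟨s, hs, rfl⟩ := he
    rw [Finset.mem_powerset] at hs
    rw [Nat.mem_divisors]
    refine ⟨?_, hr⟩
    exact (Finset.prod_dvd_prod_of_subset _ _ _ hs).trans (Nat.prod_primeFactors_dvd r)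
  · intro e _ _; positivity

theorem P2_sum : ∃ C : ℝ, 0 < C ∧ ∀ Y : ℕ, 1 ≤ Y →
    ∑ r ∈ Icc 1 Y, (1 / (r : ℝ)) * ((r : ℝ) / (Nat.totient r : ℝ)) ^ 4 ≤ C * (1 + Real.log Y) := by
  obtain ⟨C, hC0, hC⟩ := Pool.Agent.Helper112.divisor_bound (1/10) (by norm_num)
  have hsum : Summable (fun e : ℕ => C ^ 5 * (1 / (e:ℝ) ^ (3/2 : ℝ))) :=
    (Real.summable_one_div_nat_rpow.mpr (by norm_num)).mul_left _
  set D := ∑' e : ℕ, C ^ 5 * (1 / (e:ℝ) ^ (3/2 : ℝ)) with hD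
  have hDnn : 0 ≤ D := tsum_nonneg (fun e => by positivity)
  refine ⟨D + 1, by linarith, ?_⟩
  intro Y hY
  have hlog : 0 ≤ Real.log Y := Real.log_nonneg (by exact_mod_cast hY)
  have h1 : ∀ r ∈ Icc 1 Y, (1 / (r : ℝ)) * ((r : ℝ) / (Nat.totient r : ℝ)) ^ 4 ≤
      ∑ e ∈ Icc 1 Y, (if e ∣ r then (1 / (r:ℝ)) * ((e.divisors.card : ℝ) ^ 5 / e) else 0) := by
    intro r hr
    rw [mem_Icc] at hr
    have hr0 : r ≠ 0 := by omega
    have h2 := P2_ratio_le r hr0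
    have h3 : ∑ e ∈ Icc 1 Y, (if e ∣ r then (1 / (r:ℝ)) * ((e.divisors.card : ℝ) ^ 5 / e) else 0)
        = ∑ e ∈ r.divisors, (1 / (r:ℝ)) * ((e.divisors.card : ℝ) ^ 5 / e) := by
      rw [← Finset.sum_filter]
      apply Finset.sum_congr _ (fun _ _ => rfl)
      ext e
      rw [mem_filter, mem_Icc, Nat.mem_divisors]
      constructor
      · rintro ⟨_, h⟩; exact ⟨h, hr0⟩
      · rintro ⟨h, _⟩
        have := Nat.le_of_dvd (by omega) h
        have := Nat.pos_of_dvd_of_pos h (by omega)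
        exact ⟨⟨by omega, by omega⟩, h⟩
    rw [h3, ← Finset.mul_sum]
    gcongr
  refine (Finset.sum_le_sum h1).trans ?_
  rw [Finset.sum_comm]
  have h2 : ∀ e ∈ Icc 1 Y, ∑ r ∈ Icc 1 Y, (if e ∣ r then (1 / (r:ℝ)) * ((e.divisors.card : ℝ) ^ 5 / e) else 0)
      ≤ (C ^ 5 * (1 / (e:ℝ) ^ (3/2 : ℝ))) * (1 + Real.log Y) := by
    intro e he
    rw [mem_Icc] at he
    have he0 : (0:ℝ) < e := by exact_mod_cast (by omega : 0 < e)
    have h3 : ∑ r ∈ Icc 1 Y, (if e ∣ r then (1 / (r:ℝ)) * ((e.divisors.card : ℝ) ^ 5 / e) else 0)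
        ≤ ∑ k ∈ Icc 1 Y, (1 / ((e * k : ℕ):ℝ)) * ((e.divisors.card : ℝ) ^ 5 / e) := by
      rw [← Finset.sum_filter]
      have : (Icc 1 Y).filter (fun r => e ∣ r) ⊆ (Icc 1 Y).image (fun k => e * k) := by
        intro r hr
        rw [mem_filter, mem_Icc] at hr
        obtain ⟨⟨h1, h2⟩, k, rfl⟩ := hr
        rw [mem_image]
        refine ⟨k, ?_, rfl⟩
        rw [mem_Icc]
        have : 1 ≤ k := Nat.pos_of_ne_zero (by rintro rfl; simp at h1)
        exact ⟨this, by nlinarith⟩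
      refine (Finset.sum_le_sum_of_subset_of_nonneg this (fun _ _ _ => by positivity)).trans ?_
      rw [Finset.sum_image (by
        intro a _ b _ hab
        exact Nat.eq_of_mul_eq_mul_left (by omega) hab)]
    refine h3.trans ?_
    have h4 : ∑ k ∈ Icc 1 Y, (1 / ((e * k : ℕ):ℝ)) * ((e.divisors.card : ℝ) ^ 5 / e)
        = ((e.divisors.card : ℝ) ^ 5 / (e * e)) * ∑ k ∈ Icc 1 Y, (1 / (k:ℝ)) := by
      rw [Finset.mul_sum]
      apply Finset.sum_congr rfl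
      intro k hk
      rw [mem_Icc] at hk
      have : (0:ℝ) < k := by exact_mod_cast (by omega : 0 < k)
      push_cast
      field_simp
    rw [h4]
    have h5 : (e.divisors.card : ℝ) ^ 5 ≤ C ^ 5 * (e:ℝ) ^ (1/2 : ℝ) := by
      have h6 := pow_le_pow_left₀ (by positivity) (hC e he.1) 5
      rw [mul_pow, ← Real.rpow_natCast ((e:ℝ) ^ (1/10:ℝ)) 5, ← Real.rpow_mul he0.le] at h6
      norm_num at h6 ⊢
      exact h6
    have h6 : (e.divisors.card : ℝ) ^ 5 / (e * e) ≤ C ^ 5 * (1 / (e:ℝ) ^ (3/2 : ℝ)) := by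
      have h7 : (e:ℝ) * e = (e:ℝ) ^ (1/2:ℝ) * (e:ℝ) ^ (3/2:ℝ) := by
        rw [← Real.rpow_add he0, ← pow_two, ← Real.rpow_natCast]; norm_num
      rw [h7, div_le_iff₀ (by positivity)]
      have h8 : C ^ 5 * (1 / (e:ℝ) ^ (3/2 : ℝ)) * ((e:ℝ) ^ (1/2:ℝ) * (e:ℝ) ^ (3/2:ℝ)) = C ^ 5 * (e:ℝ) ^ (1/2:ℝ) := by
        field_simp
      rw [h8]; exact h5
    have h7 := Pool.Agent.Helper112.harm_le Y hY
    have h8 : 0 ≤ ∑ k ∈ Icc 1 Y, (1 / (k:ℝ)) := Finset.sum_nonneg (fun _ _ => by positivity)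
    have h9 : 0 ≤ C ^ 5 * (1 / (e:ℝ) ^ (3/2 : ℝ)) := by positivity
    calc _ ≤ (C ^ 5 * (1 / (e:ℝ) ^ (3/2 : ℝ))) * ∑ k ∈ Icc 1 Y, (1 / (k:ℝ)) :=
          mul_le_mul_of_nonneg_right h6 h8
      _ ≤ _ := mul_le_mul_of_nonneg_left h7 h9
  refine (Finset.sum_le_sum h2).trans ?_
  rw [← Finset.sum_mul]
  have h3 : ∑ e ∈ Icc 1 Y, C ^ 5 * (1 / (e:ℝ) ^ (3/2 : ℝ)) ≤ D :=
    hsum.sum_le_tsum _ (fun e _ => by positivity)
  have h4 : 0 ≤ 1 + Real.log Y := by linarith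
  nlinarith

/-- P2 -/
theorem sum_ratio4 : ∃ C : ℝ, 0 < C ∧ ∀ M : ℕ, 2 ≤ M →
    ∑ m ∈ Finset.Icc 1 M, ((m : ℝ) / (Nat.totient m : ℝ)) ^ 4 / m ≤ C * Real.log M := by
  obtain ⟨C, hC0, hC⟩ := P2_sum
  refine ⟨3 * C, by positivity, fun M hM => ?_⟩
  have h1 := hC M (by omega)
  have h2 : Real.log 2 ≤ Real.log M := Real.log_le_log (by norm_num) (by exact_mod_cast hM)
  have h3 := Real.log_two_gt_d9
  have h4 : ∑ m ∈ Finset.Icc 1 M, ((m : ℝ) / (Nat.totient m : ℝ)) ^ 4 / m =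
      ∑ r ∈ Finset.Icc 1 M, (1 / (r : ℝ)) * ((r : ℝ) / (Nat.totient r : ℝ)) ^ 4 := by
    refine Finset.sum_congr rfl fun m _ => ?_
    ring
  rw [h4]
  refine h1.trans ?_
  have h5 : 1 + Real.log M ≤ 3 * Real.log M := by linarith
  calc C * (1 + Real.log M) ≤ C * (3 * Real.log M) := mul_le_mul_of_nonneg_left h5 hC0.le
    _ = 3 * C * Real.log M := by ring

end Pool.Agent.H378R2.PS
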