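import Pool.Agent.H378R2.PS.Defs

set_option autoImplicit false

/-! # P5 (project PS of helper378): `q` prime, `q - s = n l` with `l` prime, `q - 2 s` sifted -/

namespace Pool.Agent.H378R2.PS

open Finset

/-- the statement of `sieve_gen` (P0) for `j = 1` -/
def P5_SieveGen : Prop := ∃ C : ℝ, 0 < C ∧
    ∀ (Y M w : ℕ) (E : ℕ → Finset ℕ) (S : Finset ℕ), M ≠ 0 →
    (∀ p : ℕ, p.Prime → ¬ p ∣ M → 17 ≤ p ∧ E p ⊆ Finset.range p ∧
      (p ≤ w → (E p).card = 2 + 1) ∧ (w < p → (E p).card = 2)) →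
    2 ≤ w → (w : ℝ) ≤ (Y : ℝ) ^ (1 / 64 : ℝ) → S ⊆ Finset.Icc 1 Y →
    (∀ l ∈ S, ∀ p : ℕ, p.Prime → ¬ p ∣ M → (p : ℝ) ≤ (Y : ℝ) ^ (1 / 8 : ℝ) → l % p ∉ E p) →
    (S.card : ℝ) ≤ C * ((M : ℝ) / (M.totient : ℝ)) ^ 4 * Y / ((Real.log Y) ^ 2 * (Real.log w) ^ 1)

theorem P5_root {p n : ℕ} (hp : p.Prime) (hn : ¬ p ∣ n) (t : ℤ) :
    ∃ a : ℕ, a < p ∧ (p : ℤ) ∣ (n : ℤ) * a - t := by
  haveI : Fact p.Prime := ⟨hp⟩
  refine ⟨((t : ZMod p) * (n : ZMod p)⁻¹).val, ZMod.val_lt _, ?_⟩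
  rw [← ZMod.intCast_zmod_eq_zero_iff_dvd]
  push_cast
  rw [ZMod.natCast_zmod_val]
  have h0 : (n : ZMod p) ≠ 0 := by
    intro h
    exact hn ((ZMod.natCast_eq_zero_iff _ _).1 h)
  field_simp
  ring

theorem P5_unique {p n : ℕ} (hp : p.Prime) (hn : ¬ p ∣ n) {t : ℤ} {a b : ℕ} (ha : a < p)
    (hb : b < p) (h1 : (p : ℤ) ∣ (n : ℤ) * a - t) (h2 : (p : ℤ) ∣ (n : ℤ) * b - t) : a = b := by
  have h3 : (p : ℤ) ∣ (n : ℤ) * ((a : ℤ) - b) := by
    have := dvd_sub h1 h2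
    have e : (n : ℤ) * a - t - ((n : ℤ) * b - t) = (n : ℤ) * ((a : ℤ) - b) := by ring
    rwa [e] at this
  have hpi : Prime (p : ℤ) := Nat.prime_iff_prime_int.1 hp
  rcases hpi.dvd_or_dvd h3 with h4 | h4
  · exact absurd (by exact_mod_cast h4) hn
  · obtain ⟨k, hk⟩ := h4
    have hk0 : k = 0 := by
      by_contra hk0
      rcases lt_or_gt_of_ne hk0 with h5 | h5
      · have : (p : ℤ) * k ≤ -p := by nlinarith
        omega
      · have : (p : ℤ) ≤ p * k := by nlinarith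
        omega
    rw [hk0] at hk
    omega

/-- the residue classes to be removed -/
def P5_E (n w : ℕ) (s : ℤ) (p : ℕ) : Finset ℕ :=
  (Finset.range p).filter (fun r => (p : ℤ) ∣ (n : ℤ) * r - 0 ∨ (p : ℤ) ∣ (n : ℤ) * r - (-s) ∨
    (p ≤ w ∧ (p : ℤ) ∣ (n : ℤ) * r - s))

theorem P5_card {p n w : ℕ} {s : ℤ} (hs : s = 1 ∨ s = -1) (hp : p.Prime) (h17 : 17 ≤ p)
    (hn : ¬ p ∣ n) : (p ≤ w → (P5_E n w s p).card = 2 + 1) ∧ (w < p → (P5_E n w s p).card = 2) := by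
  obtain ⟨a0, ha0, hb0⟩ := P5_root hp hn 0
  obtain ⟨a1, ha1, hb1⟩ := P5_root hp hn (-s)
  obtain ⟨a2, ha2, hb2⟩ := P5_root hp hn s
  have hdiff : ∀ {t t' : ℤ} {a : ℕ}, (p : ℤ) ∣ (n : ℤ) * a - t → (p : ℤ) ∣ (n : ℤ) * a - t' →
      (p : ℤ) ∣ t' - t := by
    intro t t' a h h'
    have := dvd_sub h h'
    have e : (n : ℤ) * a - t - ((n : ℤ) * a - t') = t' - t := by ring
    rwa [e] at this
  have hsmall : ∀ x : ℤ, x ≠ 0 → -3 < x → x < 3 → ¬ (p : ℤ) ∣ x := by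
    intro x hx0 hx1 hx2 hdvd
    have := Int.le_of_dvd (a := (p : ℤ)) (b := |x|) (abs_pos.2 hx0) ((dvd_abs _ _).2 hdvd)
    have h3 : |x| < 3 := abs_lt.2 ⟨hx1, hx2⟩
    omega
  have h01 : a0 ≠ a1 := by
    rintro rfl
    rcases hs with rfl | rfl
    · exact hsmall _ (by norm_num) (by norm_num) (by norm_num) (hdiff hb0 hb1)
    · exact hsmall _ (by norm_num) (by norm_num) (by norm_num) (hdiff hb0 hb1)
  have h02 : a0 ≠ a2 := by
    rintro rfl
    rcases hs with rfl | rfl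
    · exact hsmall _ (by norm_num) (by norm_num) (by norm_num) (hdiff hb0 hb2)
    · exact hsmall _ (by norm_num) (by norm_num) (by norm_num) (hdiff hb0 hb2)
  have h12 : a1 ≠ a2 := by
    rintro rfl
    rcases hs with rfl | rfl
    · exact hsmall _ (by norm_num) (by norm_num) (by norm_num) (hdiff hb1 hb2)
    · exact hsmall _ (by norm_num) (by norm_num) (by norm_num) (hdiff hb1 hb2)
  constructor
  · intro hpw
    have e : P5_E n w s p = {a0, a1, a2} := by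
      ext r
      unfold P5_E
      simp only [mem_filter, mem_range, mem_insert, mem_singleton]
      constructor
      · rintro ⟨hr, h | h | ⟨_, h⟩⟩
        · exact Or.inl (P5_unique hp hn hr ha0 h hb0)
        · exact Or.inr (Or.inl (P5_unique hp hn hr ha1 h hb1))
        · exact Or.inr (Or.inr (P5_unique hp hn hr ha2 h hb2))
      · rintro (rfl | rfl | rfl)
        · exact ⟨ha0, Or.inl hb0⟩
        · exact ⟨ha1, Or.inr (Or.inl hb1)⟩
        · exact ⟨ha2, Or.inr (Or.inr ⟨hpw, hb2⟩)⟩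
    rw [e, card_eq_three.2 ⟨a0, a1, a2, h01, h02, h12, rfl⟩]
  · intro hpw
    have e : P5_E n w s p = {a0, a1} := by
      ext r
      unfold P5_E
      simp only [mem_filter, mem_range, mem_insert, mem_singleton]
      constructor
      · rintro ⟨hr, h | h | ⟨h', _⟩⟩
        · exact Or.inl (P5_unique hp hn hr ha0 h hb0)
        · exact Or.inr (P5_unique hp hn hr ha1 h hb1)
        · omega
      · rintro (rfl | rfl)
        · exact ⟨ha0, Or.inl hb0⟩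
        · exact ⟨ha1, Or.inr (Or.inl hb1)⟩
    rw [e, card_pair h01]

theorem P5_mod {p n l : ℕ} (t : ℤ) (h : (p : ℤ) ∣ (n : ℤ) * ((l % p : ℕ) : ℤ) - t) :
    (p : ℤ) ∣ (n : ℤ) * l - t := by
  have e : (n : ℤ) * l - t = ((n : ℤ) * ((l % p : ℕ) : ℤ) - t) + p * (n * ((l / p : ℕ) : ℤ)) := by
    have : (l : ℤ) = ((l % p : ℕ) : ℤ) + p * ((l / p : ℕ) : ℤ) := by
      exact_mod_cast (Nat.mod_add_div l p).symm
    nth_rw 1 [this]
    ring
  rw [e]
  exact dvd_add h (dvd_mul_right _ _)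

theorem P5_totient (n : ℕ) (hn : 0 < n) :
    (((30030 * n : ℕ) : ℝ) / ((30030 * n).totient : ℝ)) ^ 4 ≤
      800 * ((n : ℝ) / (Nat.totient n : ℝ)) ^ 4 := by
  have h1 : Nat.totient 30030 = 5760 := by decide +kernel
  have h2 : 5760 * Nat.totient n ≤ Nat.totient (30030 * n) := by
    rw [← h1]
    exact Nat.totient_super_multiplicative 30030 n
  have h3 : (0 : ℝ) < Nat.totient n := by exact_mod_cast Nat.totient_pos.2 hn
  have h4 : (5760 : ℝ) * Nat.totient n ≤ Nat.totient (30030 * n) := by exact_mod_cast h2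
  have h5 : (((30030 * n : ℕ) : ℝ) / ((30030 * n).totient : ℝ)) ≤
      (30030 / 5760) * ((n : ℝ) / (Nat.totient n : ℝ)) := by
    rw [div_mul_div_comm]
    push_cast
    exact div_le_div_of_nonneg_left (by positivity) (by positivity) h4
  calc (((30030 * n : ℕ) : ℝ) / ((30030 * n).totient : ℝ)) ^ 4
      ≤ ((30030 / 5760) * ((n : ℝ) / (Nat.totient n : ℝ))) ^ 4 :=
        pow_le_pow_left₀ (by positivity) h5 4
    _ = (30030 / 5760) ^ 4 * ((n : ℝ) / (Nat.totient n : ℝ)) ^ 4 := by rw [mul_pow]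
    _ ≤ 800 * ((n : ℝ) / (Nat.totient n : ℝ)) ^ 4 := by
        refine mul_le_mul_of_nonneg_right ?_ (by positivity)
        norm_num

theorem P5_ge17 {p n : ℕ} (hp : p.Prime) (h : ¬ p ∣ 30030 * n) : 17 ≤ p ∧ ¬ p ∣ n := by
  refine ⟨?_, fun h' => h (h'.mul_left _)⟩
  by_contra hlt
  push Not at hlt
  have h2 : ¬ p ∣ 30030 := fun h' => h (h'.mul_right _)
  have h3 : p = 2 ∨ p = 3 ∨ p = 5 ∨ p = 7 ∨ p = 11 ∨ p = 13 := by
    revert hp
    clear h h2
    interval_cases p <;> decide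
  rcases h3 with rfl | rfl | rfl | rfl | rfl | rfl <;> exact h2 (by norm_num)

theorem P5_numerics {R n w : ℕ} (hn : 0 < n) (hw : 2 ≤ w) (hwR : (w : ℝ) ≤ (R : ℝ) ^ (1 / 128 : ℝ))
    (hnR : (n : ℝ) ≤ (R : ℝ) ^ (1 / 4 : ℝ)) :
    (2 : ℝ) ^ 128 ≤ R ∧ (R : ℝ) ^ (1 / 2 : ℝ) ≤ (((R + 1) / n : ℕ) : ℝ) ∧
      (((R + 1) / n : ℕ) : ℝ) ≤ 2 * R / n ∧ (R : ℝ) ^ (3 / 4 : ℝ) ≤ R / n := by
  have hw' : (2 : ℝ) ≤ w := by exact_mod_cast hw
  have hR0 : (0 : ℝ) ≤ R := by positivity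
  have h1 : (2 : ℝ) ^ 128 ≤ R := by
    have h2 : (2 : ℝ) ≤ (R : ℝ) ^ (1 / 128 : ℝ) := hw'.trans hwR
    have h3 := pow_le_pow_left₀ (by norm_num) h2 128
    rwa [← Real.rpow_natCast ((R : ℝ) ^ (1 / 128 : ℝ)) 128, ← Real.rpow_mul hR0,
      show (1 / 128 : ℝ) * ((128 : ℕ) : ℝ) = 1 by norm_num, Real.rpow_one] at h3
  have hR1 : (1 : ℝ) ≤ R := le_trans (by norm_num) h1
  have hRp : (0 : ℝ) < R := by linarith
  have hn0 : (0 : ℝ) < n := by exact_mod_cast hn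
  have h34 : (R : ℝ) ^ (3 / 4 : ℝ) ≤ R / n := by
    rw [le_div_iff₀ hn0]
    calc (R : ℝ) ^ (3 / 4 : ℝ) * n ≤ (R : ℝ) ^ (3 / 4 : ℝ) * (R : ℝ) ^ (1 / 4 : ℝ) := by gcongr
      _ = R := by rw [← Real.rpow_add hRp]; norm_num
  have h14 : (2 : ℝ) ≤ (R : ℝ) ^ (1 / 4 : ℝ) := by
    calc (2 : ℝ) ≤ (R : ℝ) ^ (1 / 128 : ℝ) := hw'.trans hwR
      _ ≤ (R : ℝ) ^ (1 / 4 : ℝ) := Real.rpow_le_rpow_of_exponent_le hR1 (by norm_num)
  refine ⟨h1, ?_, ?_, h34⟩
  · have h5 : (R : ℝ) / n - 1 ≤ (((R + 1) / n : ℕ) : ℝ) := by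
      have h6 : R + 1 < n * ((R + 1) / n) + n := by
        have := Nat.div_add_mod (R + 1) n
        have := Nat.mod_lt (R + 1) hn
        omega
      have h7 : (R : ℝ) + 1 < n * (((R + 1) / n : ℕ) : ℝ) + n := by exact_mod_cast h6
      rw [sub_le_iff_le_add, div_le_iff₀ hn0]
      nlinarith
    have h8 : (R : ℝ) ^ (3 / 4 : ℝ) = (R : ℝ) ^ (1 / 2 : ℝ) * (R : ℝ) ^ (1 / 4 : ℝ) := by
      rw [← Real.rpow_add hRp]; norm_num
    have h9 : (1 : ℝ) ≤ (R : ℝ) ^ (1 / 2 : ℝ) := Real.one_le_rpow hR1 (by norm_num)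
    nlinarith
  · calc (((R + 1) / n : ℕ) : ℝ) ≤ ((R + 1 : ℕ) : ℝ) / n := Nat.cast_div_le
      _ ≤ 2 * R / n := by
        apply div_le_div_of_nonneg_right _ hn0.le
        push_cast
        linarith

/-- P5: `q` prime, `q - s = n l` with `l` prime, `q - 2 s` without prime factors in `[5, w]` -/
theorem sieve_three (hP0 : P5_SieveGen) :
    ∃ C : ℝ, 0 < C ∧ ∀ (n R w : ℕ) (s : ℤ), (s = 1 ∨ s = -1) → 0 < n → 2 ≤ w →
    (w : ℝ) ≤ (R : ℝ) ^ (1 / 128 : ℝ) → (n : ℝ) ≤ (R : ℝ) ^ (1 / 4 : ℝ) →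
    ∀ S : Finset ℕ, (∀ q ∈ S, q.Prime ∧ q ≤ R ∧ (∃ l : ℕ, l.Prime ∧ (q : ℤ) - s = n * l) ∧
      ∀ p : ℕ, p.Prime → 5 ≤ p → p ≤ w → ¬ ((p : ℤ) ∣ (q : ℤ) - 2 * s)) →
    (S.card : ℝ) ≤ C * ((n : ℝ) / (Nat.totient n : ℝ)) ^ 4 *
      R / (n * ((Real.log R) ^ 2 * Real.log w)) := by
  obtain ⟨C, hC, hP0⟩ := hP0
  refine ⟨6400 * C + 864, by positivity, fun n R w s hs hn hw hwR hnR S hS => ?_⟩
  obtain ⟨hR128, hYlow, hYup, h34⟩ := P5_numerics hn hw hwR hnR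
  set Y : ℕ := (R + 1) / n with hY
  have hn0 : (0 : ℝ) < n := by exact_mod_cast hn
  have hR1 : (1 : ℝ) ≤ R := le_trans (by norm_num) hR128
  have hRp : (0 : ℝ) < R := by linarith
  have hY1 : (1 : ℝ) ≤ Y := (Real.one_le_rpow hR1 (by norm_num)).trans hYlow
  have hYp : (0 : ℝ) < Y := by linarith
  -- the map to `l`
  set f : ℕ → ℕ := fun q => (((q : ℤ) - s) / n).toNat with hf
  have hfl : ∀ q ∈ S, (f q).Prime ∧ (q : ℤ) - s = n * (f q : ℤ) ∧ q = n * (f q : ℤ) + s ∧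
      f q ∈ Finset.Icc 1 Y := by
    intro q hq
    obtain ⟨hqp, hqR, ⟨l, hl, hle⟩, -⟩ := hS q hq
    have hfq : f q = l := by
      show (((q : ℤ) - s) / n).toNat = l
      rw [hle, Int.mul_ediv_cancel_left _ (by exact_mod_cast hn.ne')]
      simp
    rw [hfq]
    refine ⟨hl, hle, by linarith, ?_⟩
    rw [Finset.mem_Icc, hY, Nat.le_div_iff_mul_le hn]
    refine ⟨hl.one_lt.le, ?_⟩
    have : (n : ℤ) * l ≤ R + 1 := by
      rw [← hle]
      have : (q : ℤ) ≤ R := by exact_mod_cast hqR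
      rcases hs with rfl | rfl <;> omega
    have h2 : ((l * n : ℕ) : ℤ) ≤ ((R + 1 : ℕ) : ℤ) := by push_cast; linarith
    exact_mod_cast h2
  have hfinj : Set.InjOn f (S : Set ℕ) := by
    intro q hq q' hq' h
    have h1 := (hfl q hq).2.2.1
    have h2 := (hfl q' hq').2.2.1
    rw [h] at h1
    have : (q : ℤ) = q' := by rw [h1, h2]
    exact_mod_cast this
  set B : ℕ := ⌊(Y : ℝ) ^ (1 / 8 : ℝ)⌋₊ with hB
  have hY80 : (0 : ℝ) ≤ (Y : ℝ) ^ (1 / 8 : ℝ) := by positivity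
  have hBle : (B : ℝ) ≤ (Y : ℝ) ^ (1 / 8 : ℝ) := Nat.floor_le hY80
  -- the splitting
  have hsplit : S.card ≤ (S.filter (fun q => B < q ∧ B < f q)).card + (B + B) := by
    have h1 : S ⊆ S.filter (fun q => B < q ∧ B < f q) ∪
        (S.filter (fun q => q ≤ B) ∪ S.filter (fun q => f q ≤ B)) := by
      intro q hq
      rw [mem_union, mem_union, mem_filter, mem_filter, mem_filter]
      by_cases h1 : q ≤ B
      · exact Or.inr (Or.inl ⟨hq, h1⟩)
      · by_cases h2 : f q ≤ B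
        · exact Or.inr (Or.inr ⟨hq, h2⟩)
        · exact Or.inl ⟨hq, by omega, by omega⟩
    have h2 : (S.filter (fun q => q ≤ B)).card ≤ B := by
      have : S.filter (fun q => q ≤ B) ⊆ Finset.Icc 1 B := by
        intro q hq
        rw [mem_filter] at hq
        rw [Finset.mem_Icc]
        exact ⟨(hS q hq.1).1.one_lt.le, hq.2⟩
      simpa using card_le_card this
    have h3 : (S.filter (fun q => f q ≤ B)).card ≤ B := by
      have : (S.filter (fun q => f q ≤ B)).card ≤ (Finset.Icc 1 B).card := by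
        refine card_le_card_of_injOn f ?_ ?_
        · intro q hq
          have hq' := mem_filter.1 (mem_coe.1 hq)
          rw [mem_coe, Finset.mem_Icc]
          exact ⟨(hfl q hq'.1).1.one_lt.le, hq'.2⟩
        · intro q hq q' hq' h
          exact hfinj (mem_coe.2 (mem_filter.1 (mem_coe.1 hq)).1)
            (mem_coe.2 (mem_filter.1 (mem_coe.1 hq')).1) h
      simpa using this
    refine (card_le_card h1).trans ((card_union_le _ _).trans ?_)
    refine Nat.add_le_add_left ((card_union_le _ _).trans (Nat.add_le_add h2 h3)) _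
  -- the sieve
  have hsieve := hP0 Y (30030 * n) w (P5_E n w s)
    ((S.filter (fun q => B < q ∧ B < f q)).image f) (by positivity) (by
      intro p hp hpM
      obtain ⟨h17, hpn⟩ := P5_ge17 hp hpM
      obtain ⟨c1, c2⟩ := P5_card (w := w) hs hp h17 hpn
      exact ⟨h17, filter_subset _ _, c1, c2⟩) hw (by
      refine hwR.trans ?_
      calc (R : ℝ) ^ (1 / 128 : ℝ) = ((R : ℝ) ^ (1 / 2 : ℝ)) ^ (1 / 64 : ℝ) := by
            rw [← Real.rpow_mul hRp.le]; norm_num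
        _ ≤ (Y : ℝ) ^ (1 / 64 : ℝ) := Real.rpow_le_rpow (by positivity) hYlow (by norm_num)) (by
      intro l hl
      obtain ⟨q, hq, rfl⟩ := mem_image.1 hl
      exact (hfl q (mem_filter.1 hq).1).2.2.2) (by
      intro l hl p hp hpM hpY hmem
      obtain ⟨q, hq, rfl⟩ := mem_image.1 hl
      obtain ⟨hqS, hBq, hBf⟩ := mem_filter.1 hq
      obtain ⟨h17, hpn⟩ := P5_ge17 hp hpM
      obtain ⟨hlp, -, hqe, -⟩ := hfl q hqS
      have hpB : p ≤ B := Nat.le_floor hpY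
      have hpi : Prime (p : ℤ) := Nat.prime_iff_prime_int.1 hp
      unfold P5_E at hmem
      rw [mem_filter] at hmem
      rcases hmem.2 with h | h | ⟨hpw, h⟩
      · have h2 := P5_mod 0 h
        rw [sub_zero] at h2
        rcases hpi.dvd_or_dvd h2 with h3 | h3
        · exact hpn (by exact_mod_cast h3)
        · have h4 : p ∣ f q := by exact_mod_cast h3
          have h5 := (Nat.prime_dvd_prime_iff_eq hp hlp).1 h4
          omega
      · have h2 := P5_mod (-s) h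
        rw [sub_neg_eq_add, ← hqe] at h2
        have h4 : p ∣ q := by exact_mod_cast h2
        have h5 := (Nat.prime_dvd_prime_iff_eq hp (hS q hqS).1).1 h4
        omega
      · have h2 := P5_mod s h
        have h3 : (n : ℤ) * (f q : ℤ) - s = (q : ℤ) - 2 * s := by linarith
        rw [h3] at h2
        exact (hS q hqS).2.2.2 p hp (by omega) hpw h2)
  have hcard : ((S.filter (fun q => B < q ∧ B < f q)).image f).card =
      (S.filter (fun q => B < q ∧ B < f q)).card :=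
    card_image_of_injOn (fun q hq q' hq' h =>
      hfinj (mem_coe.2 (mem_filter.1 (mem_coe.1 hq)).1)
            (mem_coe.2 (mem_filter.1 (mem_coe.1 hq')).1) h)
  rw [hcard] at hsieve
  -- estimates
  have hlogR : 0 < Real.log R := by
    refine Real.log_pos ?_
    exact lt_of_lt_of_le (by norm_num) hR128
  have hlogw : 0 < Real.log w := Real.log_pos (by exact_mod_cast (by omega : 1 < w))
  have hlogY : Real.log R / 2 ≤ Real.log Y := by
    have := Real.log_le_log (by positivity) hYlow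
    rw [Real.log_rpow hRp] at this
    linarith
  have hlwR : Real.log w ≤ Real.log R := by
    have h1 := Real.log_le_log (by exact_mod_cast (by omega : 0 < w)) hwR
    rw [Real.log_rpow hRp] at h1
    linarith
  set ρ : ℝ := (n : ℝ) / (Nat.totient n : ℝ) with hρ
  have hρ1 : 1 ≤ ρ := by
    rw [hρ, one_le_div (by exact_mod_cast Nat.totient_pos.2 hn)]
    exact_mod_cast Nat.totient_le n
  have hmain : ((S.filter (fun q => B < q ∧ B < f q)).card : ℝ) ≤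
      6400 * C * ρ ^ 4 * R / (n * ((Real.log R) ^ 2 * Real.log w)) := by
    refine hsieve.trans ?_
    rw [pow_one]
    have h1 := P5_totient n hn
    rw [← hρ] at h1
    calc C * (((30030 * n : ℕ) : ℝ) / ((30030 * n).totient : ℝ)) ^ 4 * Y /
          ((Real.log Y) ^ 2 * Real.log w)
        ≤ C * (800 * ρ ^ 4) * (2 * R / n) / ((Real.log R / 2) ^ 2 * Real.log w) := by
          gcongr
      _ = 6400 * C * ρ ^ 4 * R / (n * ((Real.log R) ^ 2 * Real.log w)) := by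
          field_simp
          ring
  have hexc : ((B + B : ℕ) : ℝ) ≤ 864 * ρ ^ 4 * R / (n * ((Real.log R) ^ 2 * Real.log w)) := by
    have h1 : Real.log R ≤ 6 * (R : ℝ) ^ (1 / 6 : ℝ) := by
      have := Real.log_le_rpow_div hRp.le (show (0 : ℝ) < 1 / 6 by norm_num)
      linarith
    have h2 : (Real.log R) ^ 2 * Real.log w ≤ 216 * (R : ℝ) ^ (1 / 2 : ℝ) := by
      calc (Real.log R) ^ 2 * Real.log w ≤ (Real.log R) ^ 2 * Real.log R := by gcongr
        _ = (Real.log R) ^ 3 := by ring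
        _ ≤ (6 * (R : ℝ) ^ (1 / 6 : ℝ)) ^ 3 := by gcongr
        _ = 216 * (R : ℝ) ^ (1 / 2 : ℝ) := by
            rw [mul_pow, ← Real.rpow_natCast ((R : ℝ) ^ (1 / 6 : ℝ)) 3, ← Real.rpow_mul hRp.le]
            norm_num
    have h3 : (R : ℝ) ^ (1 / 4 : ℝ) / 216 ≤ R / (n * ((Real.log R) ^ 2 * Real.log w)) := by
      rw [div_le_div_iff₀ (by norm_num) (by positivity)]
      calc (R : ℝ) ^ (1 / 4 : ℝ) * (n * ((Real.log R) ^ 2 * Real.log w))
          ≤ (R : ℝ) ^ (1 / 4 : ℝ) * ((R : ℝ) ^ (1 / 4 : ℝ) * (216 * (R : ℝ) ^ (1 / 2 : ℝ))) := by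
            gcongr
        _ = 216 * ((R : ℝ) ^ (1 / 4 : ℝ) * (R : ℝ) ^ (1 / 4 : ℝ) * (R : ℝ) ^ (1 / 2 : ℝ)) := by
            ring
        _ = R * 216 := by
            rw [← Real.rpow_add hRp, ← Real.rpow_add hRp]
            norm_num
            ring
    have h4 : (B : ℝ) ≤ 2 * (R : ℝ) ^ (1 / 4 : ℝ) := by
      have h5 : (Y : ℝ) ≤ (R : ℝ) ^ (2 : ℝ) := by
        have hn1 : (1 : ℝ) ≤ n := by exact_mod_cast hn
        calc (Y : ℝ) ≤ 2 * R / n := hYup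
          _ ≤ 2 * R / 1 := by gcongr
          _ = 2 * R := div_one _
          _ ≤ (R : ℝ) ^ (2 : ℝ) := by
            rw [Real.rpow_two]
            have : (2 : ℝ) ≤ R := le_trans (by norm_num) hR128
            nlinarith
      calc (B : ℝ) ≤ (Y : ℝ) ^ (1 / 8 : ℝ) := hBle
        _ ≤ ((R : ℝ) ^ (2 : ℝ)) ^ (1 / 8 : ℝ) := Real.rpow_le_rpow hYp.le h5 (by norm_num)
        _ = (R : ℝ) ^ (1 / 4 : ℝ) := by rw [← Real.rpow_mul hRp.le]; norm_num
        _ ≤ 2 * (R : ℝ) ^ (1 / 4 : ℝ) := by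
            have : (0 : ℝ) ≤ (R : ℝ) ^ (1 / 4 : ℝ) := by positivity
            linarith
    have h6 : (1 : ℝ) ≤ ρ ^ 4 := one_le_pow₀ hρ1
    have h7 : 0 ≤ R / (n * ((Real.log R) ^ 2 * Real.log w)) := by positivity
    calc ((B + B : ℕ) : ℝ) = B + B := by push_cast; ring
      _ ≤ 4 * (R : ℝ) ^ (1 / 4 : ℝ) := by linarith
      _ = 864 * ((R : ℝ) ^ (1 / 4 : ℝ) / 216) := by ring
      _ ≤ 864 * (R / (n * ((Real.log R) ^ 2 * Real.log w))) := by gcongr
      _ ≤ 864 * (ρ ^ 4 * (R / (n * ((Real.log R) ^ 2 * Real.log w)))) := by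
          gcongr
          exact le_mul_of_one_le_left h7 h6
      _ = 864 * ρ ^ 4 * R / (n * ((Real.log R) ^ 2 * Real.log w)) := by ring
  have hsplit' : (S.card : ℝ) ≤ ((S.filter (fun q => B < q ∧ B < f q)).card : ℝ) +
      ((B + B : ℕ) : ℝ) := by exact_mod_cast hsplit
  calc (S.card : ℝ) ≤ _ := hsplit'
    _ ≤ 6400 * C * ρ ^ 4 * R / (n * ((Real.log R) ^ 2 * Real.log w)) +
        864 * ρ ^ 4 * R / (n * ((Real.log R) ^ 2 * Real.log w)) := add_le_add hmain hexc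
    _ = (6400 * C + 864) * ρ ^ 4 * R / (n * ((Real.log R) ^ 2 * Real.log w)) := by ring

end Pool.Agent.H378R2.PS
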