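import Pool.Agent.H510R2.PS.P2
import Pool.Agent.H510R2.PS.P5

set_option autoImplicit false
set_option maxHeartbeats 4000000

/-! # P6 (project PS of helper378): survivors for the Goldbach problem -/

namespace Pool.Agent.H378R2.PS

open Finset

open Classical in
/-- the statement of `smooth8` (P3) -/
def P6_Smooth8 : Prop := ∃ y₀ : ℝ, ∀ y : ℝ, y₀ ≤ y → ∀ L : ℕ, y ≤ L →
    (((Finset.Icc 1 L).filter (fun m : ℕ => ∀ p : ℕ, p.Prime → p ∣ m →
      Real.log p ≤ V1 y)).card : ℝ) ≤ L / (Real.log y) ^ 8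

theorem P6_ev (t : ℝ) (ht : 1600 ≤ t) : 1 ≤ Real.log t ∧ 128 * Real.log t ≤ 20 * t ∧
    40 * t ^ 2 ≤ Real.exp t * Real.log t ∧ Real.log 2 + 4 * t ≤ Real.exp t / 4 := by
  have ht0 : 0 < t := by linarith
  have h1 : 1 ≤ Real.log t := by
    rw [Real.le_log_iff_exp_le ht0]
    have := Real.exp_one_lt_d9
    linarith
  have h2 : Real.log t ≤ t / 20 := by
    have hs : 40 ≤ √t := by
      rw [show (40 : ℝ) = √(40 ^ 2) by rw [Real.sqrt_sq (by norm_num)]]
      exact Real.sqrt_le_sqrt (by linarith)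
    have hsp : 0 < √t := by linarith
    have e : Real.log t = 2 * Real.log (√t) := by
      rw [Real.log_sqrt ht0.le]; ring
    have h3 := Real.log_le_sub_one_of_pos hsp
    have h4 : √t * √t = t := Real.mul_self_sqrt ht0.le
    rw [e]
    nlinarith
  have h3 : t ^ 3 / 27 ≤ Real.exp t := by
    have e : Real.exp t = (Real.exp (t / 3)) ^ 3 := by
      rw [← Real.exp_nat_mul]; congr 1; push_cast; ring
    have h4 := Real.add_one_le_exp (t / 3)
    have h5 : (t / 3) ^ 3 ≤ (Real.exp (t / 3)) ^ 3 :=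
      pow_le_pow_left₀ (by positivity) (by linarith) 3
    rw [e]
    refine le_trans (le_of_eq ?_) h5
    ring
  refine ⟨h1, by linarith, ?_, ?_⟩
  · have h4 : 40 * t ^ 2 ≤ t ^ 3 / 27 := by
      have : t ^ 3 = t * t ^ 2 := by ring
      rw [this]
      nlinarith [sq_nonneg t]
    have h5 : 0 < Real.exp t := Real.exp_pos t
    nlinarith
  · have h4 : Real.log 2 < 1 := by
      have := Real.log_two_lt_d9
      linarith
    have h5 : t ^ 3 = t * t ^ 2 := by ring
    nlinarith [sq_nonneg t]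

/-- P6 -/
theorem survG (hP0 : P5_SieveGen) (hP3 : P6_Smooth8) (s : ℤ) (hs : s = 1 ∨ s = -1) :
    ∃ C : ℝ, 0 < C ∧ ∃ y₀ : ℝ, ∀ y : ℝ, y₀ ≤ y →
    ∀ R : ℕ, y ≤ R → (R : ℝ) ≤ y * (Real.log y) ^ 4 → ∀ S : Finset ℕ,
    (∀ q ∈ S, q.Prime ∧ 5 ≤ q ∧ q ≤ R ∧
      (∀ p : ℕ, p.Prime → 5 ≤ p → Real.log p ≤ V1 y → ¬ ((p : ℤ) ∣ (q : ℤ) - 2 * s)) ∧
      (∀ p : ℕ, p.Prime → V1 y < Real.log p → (p : ℝ) ≤ y → ¬ ((p : ℤ) ∣ (q : ℤ) - s))) →
    (S.card : ℝ) ≤ C * R * (Real.log (Real.log y)) ^ 2 /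
        ((Real.log y) ^ 3 * Real.log (Real.log (Real.log y))) := by
  classical
  obtain ⟨C₁, hC₁, hSM⟩ := sieve_three hP0
  obtain ⟨C₂, hC₂, hSR⟩ := sum_ratio4
  obtain ⟨y₁, hsm⟩ := hP3
  refine ⟨200 * C₁ * C₂ + 2, by positivity, max y₁ (Real.exp (Real.exp 1600)),
    fun y hy R hyR hRy S hS => ?_⟩
  have hy1 := (le_max_left _ _).trans hy
  have hy' := (le_max_right _ _).trans hy
  have hy0 : 0 < y := (Real.exp_pos _).trans_le hy'
  have hL1' : Real.exp 1600 ≤ Real.log y := by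
    rw [← Real.log_exp (Real.exp 1600)]; exact Real.log_le_log (Real.exp_pos _) hy'
  have hly : 0 < Real.log y := (Real.exp_pos _).trans_le hL1'
  set t := Real.log (Real.log y) with ht
  have htt : 1600 ≤ t := by
    rw [← Real.log_exp 1600]; exact Real.log_le_log (Real.exp_pos _) hL1'
  obtain ⟨h1, h2, h3, h4⟩ := P6_ev t htt
  have hLe : Real.log y = Real.exp t := by rw [ht, Real.exp_log hly]
  have ht0 : 0 < t := by linarith
  have hlt0 : 0 < Real.log t := by linarith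
  set V := V1 y with hVdef
  have hV : V = Real.log y * Real.log t / (20 * t) := rfl
  have hV1 : 2 * t ≤ V := by
    rw [hV, le_div_iff₀ (by positivity), hLe]
    nlinarith
  have hV128 : V ≤ Real.log y / 128 := by
    rw [hV, div_le_div_iff₀ (by positivity) (by norm_num)]
    nlinarith
  have hV0 : 0 < V := by linarith
  -- the sieving level
  set w : ℕ := ⌊Real.exp V⌋₊ with hw
  have hwle : (w : ℝ) ≤ Real.exp V := Nat.floor_le (Real.exp_pos _).le
  have hw2 : 2 ≤ w := by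
    rw [hw, Nat.le_floor_iff (Real.exp_pos _).le]
    have := Real.add_one_le_exp V
    push_cast; linarith
  have hw0 : (0 : ℝ) < w := by exact_mod_cast (by omega : 0 < w)
  have hlw : V / 2 ≤ Real.log w := by
    have h7 : Real.exp V < w + 1 := Nat.lt_floor_add_one _
    have h8 : (2 : ℝ) ≤ w := by exact_mod_cast hw2
    have h9 : Real.exp V ≤ (w : ℝ) ^ 2 := by nlinarith
    have h10 := Real.log_le_log (Real.exp_pos _) h9
    rw [Real.log_exp, Real.log_pow] at h10
    push_cast at h10; linarith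
  have hlw0 : 0 < Real.log w := by linarith
  have hR0 : (0 : ℝ) < R := by linarith
  have hy1' : 1 ≤ y := by
    have : Real.exp 0 ≤ y := by
      refine le_trans ?_ hy'
      rw [Real.exp_le_exp]; exact (Real.exp_pos _).le
    rwa [Real.exp_zero] at this
  have hR1 : (1 : ℝ) ≤ R := hy1'.trans hyR
  have hlR : Real.log y ≤ Real.log R := Real.log_le_log hy0 hyR
  -- the cofactors
  set M : ℕ := ⌊2 * (Real.log y) ^ 4⌋₊ with hM
  have hMle : (M : ℝ) ≤ 2 * (Real.log y) ^ 4 := Nat.floor_le (by positivity)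
  have hly1 : 1 ≤ Real.log y := by
    refine le_trans ?_ hL1'
    exact Real.one_le_exp (by norm_num)
  have hM2 : 2 ≤ M := by
    rw [hM, Nat.le_floor_iff (by positivity)]
    have : (1 : ℝ) ≤ (Real.log y) ^ 4 := one_le_pow₀ hly1
    push_cast; linarith
  have hM0 : (0 : ℝ) < M := by exact_mod_cast (by omega : 0 < M)
  have hlM' : Real.log (2 * (Real.log y) ^ 4) = Real.log 2 + 4 * t := by
    rw [Real.log_mul (by norm_num) (by positivity), Real.log_pow, ← ht]
    push_cast; ring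
  have hlM : Real.log M ≤ 5 * t := by
    have h5 := Real.log_le_log hM0 hMle
    rw [hlM'] at h5
    have := Real.log_two_lt_d9
    linarith
  have hMR : 2 * (Real.log y) ^ 4 ≤ (R : ℝ) ^ (1 / 4 : ℝ) := by
    have h5 : 2 * (Real.log y) ^ 4 ≤ y ^ (1 / 4 : ℝ) := by
      rw [← Real.log_le_log_iff (by positivity) (by positivity), hlM', Real.log_rpow hy0, hLe]
      linarith
    exact h5.trans (Real.rpow_le_rpow hy0.le hyR (by norm_num))
  -- the sets
  set T : ℕ → Finset ℕ := fun n => S.filter (fun q : ℕ => ∃ l : ℕ, l.Prime ∧ (q : ℤ) - s = n * l)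
    with hT
  have hcov : S ⊆ S.filter (fun q : ℕ => ∀ p : ℕ, p.Prime → p ∣ ((q : ℤ) - s).toNat →
      Real.log p ≤ V) ∪ (Finset.Icc 1 M).biUnion T := by
    intro q hq
    obtain ⟨hqp, hq5, hqR, -, hq2⟩ := hS q hq
    rw [mem_union]
    by_cases hall : ∀ p : ℕ, p.Prime → p ∣ ((q : ℤ) - s).toNat → Real.log p ≤ V
    · left
      exact mem_filter.2 ⟨hq, hall⟩
    · right
      push Not at hall
      obtain ⟨p, hp, hd, hlp⟩ := hall
      have hpos : 0 < (q : ℤ) - s := by rcases hs with rfl | rfl <;> omega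
      have hcast : ((((q : ℤ) - s).toNat : ℕ) : ℤ) = (q : ℤ) - s := Int.toNat_of_nonneg hpos.le
      have hpy : y < p := by
        by_contra hcon
        push Not at hcon
        apply hq2 p hp hlp hcon
        rw [← hcast]
        exact_mod_cast hd
      obtain ⟨n, hn⟩ := hd
      have hnpos : 1 ≤ n := by
        rcases Nat.eq_zero_or_pos n with rfl | h
        · rw [mul_zero] at hn; omega
        · exact h
      have hmR : ((q : ℤ) - s).toNat ≤ R + 1 := by
        rcases hs with rfl | rfl <;> omega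
      have hnM : n ≤ M := by
        rw [hM, Nat.le_floor_iff (by positivity)]
        have h7 : (p : ℝ) * n ≤ R + 1 := by
          rw [hn] at hmR
          exact_mod_cast hmR
        have h8 : y * n ≤ y * (2 * (Real.log y) ^ 4) := by
          calc y * n ≤ p * n := by gcongr
            _ ≤ R + 1 := h7
            _ ≤ 2 * R := by linarith
            _ ≤ 2 * (y * (Real.log y) ^ 4) := by linarith
            _ = y * (2 * (Real.log y) ^ 4) := by ring
        exact le_of_mul_le_mul_left h8 hy0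
      rw [mem_biUnion]
      refine ⟨n, Finset.mem_Icc.2 ⟨hnpos, hnM⟩, ?_⟩
      rw [hT]
      refine mem_filter.2 ⟨hq, p, hp, ?_⟩
      rw [← hcast, hn]
      push_cast
      ring
  -- one cofactor
  have hTn : ∀ n ∈ Finset.Icc 1 M, ((T n).card : ℝ) ≤
      C₁ * R / ((Real.log y) ^ 2 * (V / 2)) * (((n : ℝ) / (Nat.totient n : ℝ)) ^ 4 / n) := by
    intro n hn
    rw [Finset.mem_Icc] at hn
    have hn0 : (0 : ℝ) < n := by exact_mod_cast hn.1
    have hnM : (n : ℝ) ≤ M := by exact_mod_cast hn.2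
    have h8 := hSM n R w s hs hn.1 hw2 (by
      refine hwle.trans ?_
      rw [Real.rpow_def_of_pos hR0]
      apply Real.exp_le_exp.2
      linarith) ((hnM.trans hMle).trans hMR) (T n) (by
      intro q hq
      rw [hT] at hq
      obtain ⟨hqS, hex⟩ := mem_filter.1 hq
      obtain ⟨hqp, hq5, hqR, hq1, -⟩ := hS q hqS
      refine ⟨hqp, hqR, hex, fun p hp hp5 hpw => hq1 p hp hp5 ?_⟩
      have : (p : ℝ) ≤ w := by exact_mod_cast hpw
      rw [Real.log_le_iff_le_exp (by exact_mod_cast hp.pos)]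
      exact this.trans hwle)
    refine h8.trans ?_
    calc C₁ * ((n : ℝ) / (Nat.totient n : ℝ)) ^ 4 * R / (n * ((Real.log R) ^ 2 * Real.log w))
        ≤ C₁ * ((n : ℝ) / (Nat.totient n : ℝ)) ^ 4 * R / (n * ((Real.log y) ^ 2 * (V / 2))) := by
          gcongr
      _ = _ := by field_simp
  -- the smooth part
  have hsmooth : ((S.filter (fun q : ℕ => ∀ p : ℕ, p.Prime → p ∣ ((q : ℤ) - s).toNat →
      Real.log p ≤ V)).card : ℝ) ≤ 2 * R / (Real.log y) ^ 8 := by
    have h5 := hsm y hy1 (R + 1) (by push_cast; linarith)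
    have h6 : (S.filter (fun q : ℕ => ∀ p : ℕ, p.Prime → p ∣ ((q : ℤ) - s).toNat →
        Real.log p ≤ V)).card ≤ ((Finset.Icc 1 (R + 1)).filter (fun m : ℕ =>
        ∀ p : ℕ, p.Prime → p ∣ m → Real.log p ≤ V1 y)).card := by
      refine card_le_card_of_injOn (fun q : ℕ => ((q : ℤ) - s).toNat) ?_ ?_
      · intro q hq
        obtain ⟨hqS, hq2⟩ := mem_filter.1 (mem_coe.1 hq)
        obtain ⟨hqp, hq5, hqR, -, -⟩ := hS q hqS
        rw [mem_coe, mem_filter, Finset.mem_Icc]
        refine ⟨⟨?_, ?_⟩, hq2⟩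
        · show 1 ≤ ((q : ℤ) - s).toNat
          rcases hs with rfl | rfl <;> omega
        · show ((q : ℤ) - s).toNat ≤ R + 1
          rcases hs with rfl | rfl <;> omega
      · intro q hq q' hq' h
        have h5 := (hS q (mem_filter.1 (mem_coe.1 hq)).1).2.1
        have h5' := (hS q' (mem_filter.1 (mem_coe.1 hq')).1).2.1
        have h' : ((q : ℤ) - s).toNat = ((q' : ℤ) - s).toNat := h
        rcases hs with rfl | rfl <;> omega
    have h7 : ((S.filter (fun q : ℕ => ∀ p : ℕ, p.Prime → p ∣ ((q : ℤ) - s).toNat →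
        Real.log p ≤ V)).card : ℝ) ≤ (((Finset.Icc 1 (R + 1)).filter (fun m : ℕ =>
        ∀ p : ℕ, p.Prime → p ∣ m → Real.log p ≤ V1 y)).card : ℝ) := by exact_mod_cast h6
    refine h7.trans (h5.trans ?_)
    gcongr
    push_cast
    linarith
  have hcard : (S.card : ℝ) ≤ 2 * R / (Real.log y) ^ 8 +
      C₁ * R / ((Real.log y) ^ 2 * (V / 2)) * (C₂ * (5 * t)) := by
    calc (S.card : ℝ) ≤ ((S.filter (fun q : ℕ => ∀ p : ℕ, p.Prime → p ∣ ((q : ℤ) - s).toNat →
            Real.log p ≤ V)).card : ℝ) + ((∑ n ∈ Finset.Icc 1 M, (T n).card : ℕ) : ℝ) := by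
          rw [← Nat.cast_add]
          apply Nat.cast_le.2
          refine (card_le_card hcov).trans ((card_union_le _ _).trans ?_)
          gcongr
          exact card_biUnion_le
      _ ≤ 2 * R / (Real.log y) ^ 8 + ∑ n ∈ Finset.Icc 1 M,
            C₁ * R / ((Real.log y) ^ 2 * (V / 2)) * (((n : ℝ) / (Nat.totient n : ℝ)) ^ 4 / n) := by
          rw [Nat.cast_sum]
          exact add_le_add hsmooth (sum_le_sum hTn)
      _ = 2 * R / (Real.log y) ^ 8 + C₁ * R / ((Real.log y) ^ 2 * (V / 2)) *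
            ∑ n ∈ Finset.Icc 1 M, (((n : ℝ) / (Nat.totient n : ℝ)) ^ 4 / n) := by rw [mul_sum]
      _ ≤ 2 * R / (Real.log y) ^ 8 + C₁ * R / ((Real.log y) ^ 2 * (V / 2)) * (C₂ * (5 * t)) := by
          gcongr
          exact (hSR M hM2).trans (by gcongr)
  refine hcard.trans ?_
  have e1 : C₁ * R / ((Real.log y) ^ 2 * (V / 2)) * (C₂ * (5 * t)) =
      200 * C₁ * C₂ * R * t ^ 2 / ((Real.log y) ^ 3 * Real.log t) := by
    rw [hV]; field_simp; ring
  have e2 : 2 * (R : ℝ) / (Real.log y) ^ 8 ≤ 2 * R * t ^ 2 / ((Real.log y) ^ 3 * Real.log t) := by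
    rw [div_le_div_iff₀ (by positivity) (by positivity)]
    have h7 : Real.log t ≤ (Real.log y) ^ 5 * t ^ 2 := by
      have h8 : (1 : ℝ) ≤ (Real.log y) ^ 5 := one_le_pow₀ hly1
      have h9 : Real.log t ≤ t ^ 2 := by nlinarith
      nlinarith [sq_nonneg t]
    calc 2 * (R : ℝ) * ((Real.log y) ^ 3 * Real.log t)
        ≤ 2 * R * ((Real.log y) ^ 3 * ((Real.log y) ^ 5 * t ^ 2)) := by gcongr
      _ = 2 * R * t ^ 2 * (Real.log y) ^ 8 := by ring
  rw [e1]
  calc 2 * (R : ℝ) / (Real.log y) ^ 8 +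
        200 * C₁ * C₂ * R * t ^ 2 / ((Real.log y) ^ 3 * Real.log t)
      ≤ 2 * R * t ^ 2 / ((Real.log y) ^ 3 * Real.log t) +
        200 * C₁ * C₂ * R * t ^ 2 / ((Real.log y) ^ 3 * Real.log t) := by gcongr
    _ = (200 * C₁ * C₂ + 2) * R * t ^ 2 / ((Real.log y) ^ 3 * Real.log t) := by ring

end Pool.Agent.H378R2.PS
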